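import Mathlib
import Pool.Agent.helper18.HG.Spec

set_option autoImplicit false

namespace Pool.Agent.helper18.HG

open Finset

theorem LIO_eval (p : Polynomial ℂ) (K : ℝ) (n : ℕ) (hK : ∀ i, ‖p.coeff i‖ ≤ K) (hn : p.natDegree ≤ n) (z : ℂ) :
    ‖p.eval z‖ ≤ ((n : ℝ) + 1) * K * max 1 ‖z‖ ^ n := by
  have hK0 : 0 ≤ K := (norm_nonneg _).trans (hK 0)
  have h1 : (1 : ℝ) ≤ max 1 ‖z‖ := le_max_left _ _
  rw [Polynomial.eval_eq_sum_range' (Nat.lt_succ_of_le hn)]
  refine (norm_sum_le _ _).trans ?_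
  have h2 : ∀ i ∈ range (n + 1), ‖p.coeff i * z ^ i‖ ≤ K * max 1 ‖z‖ ^ n := by
    intro i hi
    rw [norm_mul, norm_pow]
    have h3 : ‖z‖ ^ i ≤ max 1 ‖z‖ ^ n :=
      (pow_le_pow_left₀ (norm_nonneg _) (le_max_right _ _) i).trans
        (pow_le_pow_right₀ h1 (Nat.lt_succ_iff.mp (mem_range.mp hi)))
    exact mul_le_mul (hK i) h3 (pow_nonneg (norm_nonneg _) _) hK0
  refine (sum_le_sum h2).trans ?_
  rw [sum_const, card_range, nsmul_eq_mul]
  push_cast
  rw [mul_assoc]

theorem LIO_sum (p : Polynomial ℂ) (K : ℝ) (n : ℕ) (hK : ∀ i, ‖p.coeff i‖ ≤ K) (hn : p.natDegree ≤ n) :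
    (p.sum fun _ a => ‖a‖) ≤ ((n : ℝ) + 1) * K := by
  rw [Polynomial.sum_over_range' p (fun i => norm_zero) (n + 1) (Nat.lt_succ_of_le hn)]
  refine (sum_le_sum (fun i _ => hK i)).trans ?_
  rw [sum_const, card_range, nsmul_eq_mul]
  push_cast
  exact le_refl _

theorem LIO_factor (P : Polynomial ℤ) (α : ℂ) (hP : P ≠ 0) (h : Polynomial.aeval α P = 0) :
    ∃ P₁ R : Polynomial ℤ, P = P₁ * R ∧ Irreducible P₁ ∧ Polynomial.aeval α P₁ = 0 := by
  obtain ⟨u, hu⟩ := UniqueFactorizationMonoid.factors_prod hP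
  have h1 : Polynomial.aeval α ((UniqueFactorizationMonoid.factors P).prod) * Polynomial.aeval α (u : Polynomial ℤ) = 0 := by
    rw [← map_mul, hu, h]
  have h2 : Polynomial.aeval α (u : Polynomial ℤ) ≠ 0 :=
    (u.isUnit.map (Polynomial.aeval α : Polynomial ℤ →ₐ[ℤ] ℂ)).ne_zero
  have h3 : Polynomial.aeval α ((UniqueFactorizationMonoid.factors P).prod) = 0 :=
    (mul_eq_zero.mp h1).resolve_right h2
  rw [map_multiset_prod, Multiset.prod_eq_zero_iff, Multiset.mem_map] at h3
  obtain ⟨P₁, hm, h4⟩ := h3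
  obtain ⟨R, hR⟩ := UniqueFactorizationMonoid.dvd_of_mem_factors hm
  exact ⟨P₁, R, hR, UniqueFactorizationMonoid.irreducible_of_factor P₁ hm, h4⟩

theorem LIO_coprime (P₁ B : Polynomial ℤ) (α : ℂ) (hi : Irreducible P₁) (h : Polynomial.aeval α P₁ = 0)
    (hB : Polynomial.aeval α B ≠ 0) :
    IsCoprime (P₁.map (Int.castRingHom ℚ)) (B.map (Int.castRingHom ℚ)) := by
  have hd : P₁.natDegree ≠ 0 := by
    intro h0
    obtain ⟨c, hc⟩ := Polynomial.natDegree_eq_zero.mp h0
    rw [← hc, Polynomial.aeval_C] at h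
    have h1 : c = 0 := by
      have h2 : ((c : ℤ) : ℂ) = 0 := by simpa using h
      exact_mod_cast h2
    rw [h1, Polynomial.C_0] at hc
    exact hi.ne_zero hc.symm
  have hprim : P₁.IsPrimitive := hi.isPrimitive hd
  have hirr : Irreducible (P₁.map (Int.castRingHom ℚ)) :=
    (Polynomial.IsPrimitive.Int.irreducible_iff_irreducible_map_cast hprim).mp hi
  refine (Irreducible.coprime_iff_not_dvd hirr).mpr ?_
  rintro ⟨q, hq⟩
  apply hB
  have h1 : Polynomial.aeval α (B.map (Int.castRingHom ℚ)) = Polynomial.aeval α B := by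
    exact Polynomial.aeval_map_algebraMap ℚ α B
  have h2 : Polynomial.aeval α (P₁.map (Int.castRingHom ℚ)) = Polynomial.aeval α P₁ := by
    exact Polynomial.aeval_map_algebraMap ℚ α P₁
  rw [← h1, hq, map_mul, h2, h, zero_mul]

theorem LIO_res (P₁ B : Polynomial ℤ)
    (hc : IsCoprime (P₁.map (Int.castRingHom ℚ)) (B.map (Int.castRingHom ℚ))) :
    1 ≤ ‖(P₁.map (Int.castRingHom ℂ)).leadingCoeff ^ B.natDegree *
      ((P₁.map (Int.castRingHom ℂ)).roots.map (B.map (Int.castRingHom ℂ)).eval).prod‖ := by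
  have hinj : Function.Injective (Int.castRingHom ℚ) := Int.cast_injective
  have hinjC : Function.Injective (Int.castRingHom ℂ) := Int.cast_injective
  have h1 := Polynomial.resultant_ne_zero _ _ hc
  rw [Polynomial.natDegree_map_eq_of_injective hinj, Polynomial.natDegree_map_eq_of_injective hinj,
    Polynomial.resultant_map_map] at h1
  have h2 : Polynomial.resultant P₁ B P₁.natDegree B.natDegree ≠ 0 := by
    intro h0
    rw [h0, map_zero] at h1
    exact h1 rfl
  have h3 := Polynomial.resultant_eq_prod_eval (P₁.map (Int.castRingHom ℂ)) (B.map (Int.castRingHom ℂ)) B.natDegree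
    Polynomial.natDegree_map_le (IsAlgClosed.splits _)
  rw [Polynomial.natDegree_map_eq_of_injective hinjC, Polynomial.resultant_map_map] at h3
  rw [← h3]
  have h4 : (Int.castRingHom ℂ) (Polynomial.resultant P₁ B P₁.natDegree B.natDegree) =
    ((Polynomial.resultant P₁ B P₁.natDegree B.natDegree : ℤ) : ℂ) := rfl
  rw [h4, Complex.norm_intCast]
  exact_mod_cast Int.one_le_abs h2

theorem LIO : LIO_stmt := by
  intro P B α d D H L hP hPα hBα hd hD hH hL hcP hcB
  obtain ⟨P₁, R, hPR, hirr, hP₁α⟩ := LIO_factor P α hP hPα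
  have hP₁0 : P₁ ≠ 0 := hirr.ne_zero
  have hR0 : R ≠ 0 := by
    rintro rfl
    exact hP (by rw [hPR, mul_zero])
  have hres := LIO_res P₁ B (LIO_coprime P₁ B α hirr hP₁α hBα)
  have hinjC : Function.Injective (Int.castRingHom ℂ) := Int.cast_injective
  set p : Polynomial ℂ := P₁.map (Int.castRingHom ℂ) with hp
  set b : Polynomial ℂ := B.map (Int.castRingHom ℂ) with hb
  have hp0 : p ≠ 0 := (Polynomial.map_ne_zero_iff hinjC).mpr hP₁0
  have hevα : b.eval α = Polynomial.aeval α B := by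
    rw [hb, Polynomial.eval_map]
    rfl
  have hαr : α ∈ p.roots := by
    rw [Polynomial.mem_roots hp0, Polynomial.IsRoot, hp, Polynomial.eval_map]
    exact hP₁α
  obtain ⟨t, ht⟩ := Multiset.exists_cons_of_mem hαr
  have hcard : Multiset.card t + 1 ≤ d := by
    have h1 : Multiset.card p.roots ≤ p.natDegree := p.card_roots'
    rw [ht, Multiset.card_cons, hp, Polynomial.natDegree_map_eq_of_injective hinjC] at h1
    have h2 : P.natDegree = P₁.natDegree + R.natDegree := by
      rw [hPR, Polynomial.natDegree_mul hP₁0 hR0]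
    omega
  have hcb : ∀ i, ‖b.coeff i‖ ≤ L := by
    intro i
    rw [hb, Polynomial.coeff_map]
    have h4 : (Int.castRingHom ℂ) (B.coeff i) = ((B.coeff i : ℤ) : ℂ) := rfl
    rw [h4, Complex.norm_intCast]
    exact hcB i
  set c : ℝ := ((D : ℝ) + 1) * L with hc
  have hc1 : 1 ≤ c := by
    have : (0 : ℝ) ≤ D := Nat.cast_nonneg D
    nlinarith
  have hbd : ∀ x ∈ t, ‖b.eval x‖ ≤ c * max 1 ‖x‖ ^ B.natDegree := by
    intro x _
    refine (LIO_eval b L B.natDegree hcb Polynomial.natDegree_map_le x).trans ?_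
    refine mul_le_mul_of_nonneg_right ?_ (pow_nonneg (zero_le_one.trans (le_max_left _ _)) _)
    refine mul_le_mul_of_nonneg_right ?_ (zero_le_one.trans hL)
    have : (B.natDegree : ℝ) ≤ D := Nat.cast_le.mpr hD
    linarith
  have hM := Polynomial.mahlerMeasure_eq_leadingCoeff_mul_prod_roots p
  have hMP : p.mahlerMeasure ≤ ((d : ℝ) + 1) * H := by
    have h1 : (P.map (Int.castRingHom ℂ)) = p * R.map (Int.castRingHom ℂ) := by
      rw [hPR, Polynomial.map_mul]
    have h2 : (P.map (Int.castRingHom ℂ)).mahlerMeasure = p.mahlerMeasure * (R.map (Int.castRingHom ℂ)).mahlerMeasure := by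
      rw [h1, Polynomial.mahlerMeasure_mul]
    have h3 : 1 ≤ (R.map (Int.castRingHom ℂ)).mahlerMeasure := Polynomial.one_le_mahlerMeasure_of_ne_zero hR0
    have h4 : (P.map (Int.castRingHom ℂ)).mahlerMeasure ≤ ((d : ℝ) + 1) * H := by
      refine (Polynomial.mahlerMeasure_le_sum_norm_coeff _).trans ?_
      refine LIO_sum _ H d ?_ (Polynomial.natDegree_map_le.trans hd)
      intro i
      rw [Polynomial.coeff_map]
      have h4 : (Int.castRingHom ℂ) (P.coeff i) = ((P.coeff i : ℤ) : ℂ) := rfl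
      rw [h4, Complex.norm_intCast]
      exact hcP i
    have h5 : 0 ≤ p.mahlerMeasure := p.mahlerMeasure_nonneg
    calc p.mahlerMeasure = p.mahlerMeasure * 1 := (mul_one _).symm
      _ ≤ p.mahlerMeasure * (R.map (Int.castRingHom ℂ)).mahlerMeasure := mul_le_mul_of_nonneg_left h3 h5
      _ = _ := h2.symm
      _ ≤ _ := h4
  have hprod : ‖(t.map b.eval).prod‖ ≤ c ^ (Multiset.card t) * (t.map (fun x => max 1 ‖x‖)).prod ^ B.natDegree := by
    have h1 : ‖(t.map b.eval).prod‖ = (t.map (fun x => ‖b.eval x‖)).prod := by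
      have h2 := map_multiset_prod (normHom : ℂ →*₀ ℝ) (t.map b.eval)
      rw [Multiset.map_map] at h2
      exact h2
    have h2 : (t.map (fun x => c * max 1 ‖x‖ ^ B.natDegree)).prod =
        c ^ (Multiset.card t) * (t.map (fun x => max 1 ‖x‖)).prod ^ B.natDegree := by
      rw [Multiset.prod_map_mul, Multiset.prod_map_pow, Multiset.map_const', Multiset.prod_replicate]
    rw [h1, ← h2]
    exact Multiset.prod_map_le_prod_map₀ _ _ (fun x _ => norm_nonneg _) hbd
  have hone : (1 : ℝ) ≤ (t.map (fun x => max 1 ‖x‖)).prod := by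
    clear hbd hprod hcard ht
    induction t using Multiset.induction_on with
    | empty => simp
    | cons x s ih =>
      rw [Multiset.map_cons, Multiset.prod_cons]
      exact one_le_mul_of_one_le_of_one_le (le_max_left _ _) ih
  have hmain : 1 ≤ ‖p.leadingCoeff‖ ^ B.natDegree * (‖Polynomial.aeval α B‖ * (c ^ (Multiset.card t) *
      (t.map (fun x => max 1 ‖x‖)).prod ^ B.natDegree)) := by
    refine hres.trans ?_
    rw [norm_mul, norm_pow, ht, Multiset.map_cons, Multiset.prod_cons, norm_mul, hevα]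
    exact mul_le_mul_of_nonneg_left (mul_le_mul_of_nonneg_left hprod (norm_nonneg _)) (pow_nonneg (norm_nonneg _) _)
  have hM2 : ‖p.leadingCoeff‖ * (t.map (fun x => max 1 ‖x‖)).prod ≤ p.mahlerMeasure := by
    rw [hM, ht, Multiset.map_cons, Multiset.prod_cons]
    refine mul_le_mul_of_nonneg_left ?_ (norm_nonneg _)
    exact le_mul_of_one_le_left (zero_le_one.trans hone) (le_max_left _ _)
  have hMP1 : (1 : ℝ) ≤ ((d : ℝ) + 1) * H := by
    have : (0 : ℝ) ≤ d := Nat.cast_nonneg d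
    nlinarith
  calc (1 : ℝ) ≤ ‖p.leadingCoeff‖ ^ B.natDegree * (‖Polynomial.aeval α B‖ * (c ^ (Multiset.card t) *
      (t.map (fun x => max 1 ‖x‖)).prod ^ B.natDegree)) := hmain
    _ = ‖Polynomial.aeval α B‖ * c ^ (Multiset.card t) *
      (‖p.leadingCoeff‖ * (t.map (fun x => max 1 ‖x‖)).prod) ^ B.natDegree := by
        rw [mul_pow]; ring
    _ ≤ ‖Polynomial.aeval α B‖ * c ^ d * (((d : ℝ) + 1) * H) ^ D := by
        have h1 : c ^ (Multiset.card t) ≤ c ^ d := pow_le_pow_right₀ hc1 (by omega)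
        have h2 : (‖p.leadingCoeff‖ * (t.map (fun x => max 1 ‖x‖)).prod) ^ B.natDegree ≤ (((d : ℝ) + 1) * H) ^ D :=
          (pow_le_pow_left₀ (mul_nonneg (norm_nonneg _) (zero_le_one.trans hone)) (hM2.trans hMP) _).trans
            (pow_le_pow_right₀ hMP1 hD)
        refine mul_le_mul (mul_le_mul_of_nonneg_left h1 (norm_nonneg _)) h2 ?_ ?_
        · exact pow_nonneg (mul_nonneg (norm_nonneg _) (zero_le_one.trans hone)) _
        · exact mul_nonneg (norm_nonneg _) (pow_nonneg (zero_le_one.trans hc1) _)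

end Pool.Agent.helper18.HG
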